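import Mathlib

/-!
# Mutual square-root-of-unity divisors below n, MP_83ba34_nt

For `l ≡ 3` modulo `4`, `l ≥ 3`, and all `j ≥ 1` the second term `G_2(k) = k² - 1` of a chain is
never the term `G_{2j+1}(l)`.

Proof. `G_{2j+1} + 1 = (G_j - G_{j-1}) (G_{j+1} + G_j)` with coprime factors. If the product is a
square, then `G_j - G_{j-1}` is a square. But it is `≡ -1` modulo `V_N` for a suitable power `N` of
two, and `V_N ≡ 3` modulo `4`.
-/

set_option autoImplicit false

namespace Pool.Agent.Results.MP_83ba34_nt.OddIndices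

/-- `G_0 = 1`, `G_1 = x`, `G_{i+2} = x G_{i+1} - G_i` -/
def G : ℕ → ℤ → ℤ
  | 0, _ => 1
  | 1, x => x
  | (i + 2), x => x * G (i + 1) x - G i x

/-- `U_0 = 0`, `U_1 = 1`, so `G_i = U_{i+1}` -/
def U : ℕ → ℤ → ℤ
  | 0, _ => 0
  | 1, _ => 1
  | (i + 2), x => x * U (i + 1) x - U i x

lemma G_eq (x : ℤ) : ∀ i, G i x = U (i + 1) x ∧ G (i + 1) x = U (i + 2) x := by
  intro i
  induction i with
  | zero => simp [G, U]
  | succ i ih =>
    refine ⟨ih.2, ?_⟩
    show x * G (i + 1) x - G i x = x * U (i + 2) x - U (i + 1) x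
    rw [ih.1, ih.2]

lemma norm (x : ℤ) : ∀ n, U (n + 1) x ^ 2 - x * U (n + 1) x * U n x + U n x ^ 2 = 1 := by
  intro n
  induction n with
  | zero => simp [U]
  | succ n ih =>
    have h : U (n + 2) x = x * U (n + 1) x - U n x := rfl
    rw [h]
    linear_combination ih

lemma add_form (x : ℤ) (a : ℕ) : ∀ b, U (a + b + 1) x = U (a + 1) x * U (b + 1) x - U a x * U b x ∧
    U (a + b + 2) x = U (a + 1) x * U (b + 2) x - U a x * U (b + 1) x := by
  intro b
  induction b with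
  | zero =>
    have h : U (a + 2) x = x * U (a + 1) x - U a x := rfl
    refine ⟨?_, ?_⟩
    · simp [U]
    · show U (a + 2) x = _
      rw [h]
      simp [U]
      ring
  | succ b ih =>
    refine ⟨ih.2, ?_⟩
    have h1 : U (a + (b + 1) + 2) x = x * U (a + b + 2) x - U (a + b + 1) x := rfl
    have h2 : U (b + 1 + 2) x = x * U (b + 2) x - U (b + 1) x := rfl
    have h3 : U (b + 2) x = x * U (b + 1) x - U b x := rfl
    rw [h1, ih.1, ih.2, h2]
    linear_combination (U a x) * h3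

lemma odd_form (x : ℤ) (j : ℕ) : U (2 * j + 1) x = U (j + 1) x ^ 2 - U j x ^ 2 := by
  have h := (add_form x j j).1
  have h2 : 2 * j + 1 = j + j + 1 := by ring
  rw [h2, h]
  ring

lemma even_form (x : ℤ) (j : ℕ) : U (2 * j) x = U j x * (2 * U (j + 1) x - x * U j x) := by
  cases j with
  | zero => simp [U]
  | succ j =>
    have h := (add_form x (j + 1) j).1
    have h2 : 2 * (j + 1) = j + 1 + j + 1 := by ring
    have h3 : U (j + 1 + 1) x = x * U (j + 1) x - U j x := rfl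
    rw [h2, h, h3]
    ring

lemma dvd_even (x : ℤ) : ∀ m, ∃ q, U (2 * m) x = x * q := by
  intro m
  induction m with
  | zero => exact ⟨0, by simp [U]⟩
  | succ m ih =>
    obtain ⟨q, hq⟩ := ih
    have h : U (2 * (m + 1)) x = x * U (2 * m + 1) x - U (2 * m) x := rfl
    exact ⟨U (2 * m + 1) x - q, by rw [h, hq]; ring⟩

lemma grow (x : ℤ) (hx : 3 ≤ x) : ∀ n, 0 ≤ U n x ∧ U n x + 1 ≤ U (n + 1) x := by
  intro n
  induction n with
  | zero => simp [U]
  | succ n ih =>
    have h : U (n + 2) x = x * U (n + 1) x - U n x := rfl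
    refine ⟨by linarith [ih.1, ih.2], ?_⟩
    show U (n + 1) x + 1 ≤ U (n + 2) x
    rw [h]
    nlinarith [ih.1, ih.2]

/-- the companion sequence -/
def V : ℕ → ℤ → ℤ
  | 0, _ => 2
  | 1, x => x
  | (i + 2), x => x * V (i + 1) x - V i x

lemma V_eq (x : ℤ) : ∀ n, V n x = 2 * U (n + 1) x - x * U n x ∧
    V (n + 1) x = 2 * U (n + 2) x - x * U (n + 1) x := by
  intro n
  induction n with
  | zero =>
    constructor
    · simp [V, U]
    · simp [V, U]
      ring
  | succ n ih =>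
    refine ⟨ih.2, ?_⟩
    have h1 : V (n + 1 + 1) x = x * V (n + 1) x - V n x := rfl
    have h2 : U (n + 2) x = x * U (n + 1) x - U n x := rfl
    have h3 : U (n + 1 + 2) x = x * U (n + 2) x - U (n + 1) x := rfl
    rw [h1, ih.1, ih.2, h3]
    linear_combination x * h2

lemma V_double (x : ℤ) (N : ℕ) : V (2 * N) x = V N x ^ 2 - 2 := by
  rw [(V_eq x (2 * N)).1, (V_eq x N).1, odd_form, even_form]
  linear_combination (-2) * norm x N

lemma V_double_succ (x : ℤ) (N : ℕ) : V (2 * N + 1) x = V (N + 1) x * V N x - x := by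
  have h1 : V (2 * N + 1) x = 2 * U (2 * (N + 1)) x - x * U (2 * N + 1) x := (V_eq x (2 * N)).2
  have h3 : U (N + 1 + 1) x = x * U (N + 1) x - U N x := rfl
  rw [h1, even_form, odd_form, (V_eq x N).2, (V_eq x N).1]
  rw [h3]
  linear_combination (-x) * norm x N

lemma V_shift (x : ℤ) (N : ℕ) : ∀ n, V (n + 2 * N) x = V (n + N) x * V N x - V n x ∧
    V (n + 1 + 2 * N) x = V (n + 1 + N) x * V N x - V (n + 1) x := by
  intro n
  induction n with
  | zero =>
    constructor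
    · rw [Nat.zero_add, Nat.zero_add, V_double]
      simp [V]
      ring
    · have h := V_double_succ x N
      have h1 : 0 + 1 + 2 * N = 2 * N + 1 := by ring
      have h2 : 0 + 1 + N = N + 1 := by ring
      rw [h1, h2, h]
      simp [V]
  | succ n ih =>
    refine ⟨ih.2, ?_⟩
    have h1 : n + 1 + 1 + 2 * N = (n + 2 * N) + 2 := by ring
    have h2 : n + 1 + 1 + N = (n + N) + 2 := by ring
    have h3 : V ((n + 2 * N) + 2) x = x * V ((n + 2 * N) + 1) x - V (n + 2 * N) x := rfl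
    have h4 : V ((n + N) + 2) x = x * V ((n + N) + 1) x - V (n + N) x := rfl
    have h5 : V (n + 1 + 1) x = x * V (n + 1) x - V n x := rfl
    have h6 : n + 1 + 2 * N = (n + 2 * N) + 1 := by ring
    have h7 : n + 1 + N = (n + N) + 1 := by ring
    rw [h6, h7] at ih
    rw [h1, h2, h3, h4, h5, ih.1, ih.2]
    ring

lemma V_period (x : ℤ) (N r : ℕ) : ∀ t, V N x ∣ V (4 * N * t + r) x - V r x := by
  intro t
  induction t with
  | zero => simp
  | succ t ih =>
    have h1 := (V_shift x N (4 * N * t + r)).1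
    have h2 := (V_shift x N (4 * N * t + r + 2 * N)).1
    have h3 : 4 * N * (t + 1) + r = 4 * N * t + r + 2 * N + 2 * N := by ring
    rw [h3, h2, h1]
    have h4 : V (4 * N * t + r + 2 * N + N) x * V N x -
        (V (4 * N * t + r + N) x * V N x - V (4 * N * t + r) x) - V r x =
        V N x * (V (4 * N * t + r + 2 * N + N) x - V (4 * N * t + r + N) x) +
          (V (4 * N * t + r) x - V r x) := by ring
    rw [h4]
    exact dvd_add (dvd_mul_right _ _) ih

lemma V_mid (x : ℤ) (N : ℕ) (hN : 1 ≤ N) :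
    V N x ∣ V (2 * N + 1) x + x ∧ V N x ∣ V (2 * N - 1) x + x := by
  have h1 := V_double_succ x N
  constructor
  · rw [h1]
    exact ⟨V (N + 1) x, by ring⟩
  · have h2 : V (2 * N + 1) x = x * V (2 * N) x - V (2 * N - 1) x := by
      obtain ⟨M, rfl⟩ : ∃ M, N = M + 1 := ⟨N - 1, by omega⟩
      rfl
    refine ⟨x * V N x - V (N + 1) x, ?_⟩
    rw [V_double] at h2
    linear_combination h2 - h1

lemma V_pow (x : ℤ) (hx : 3 ≤ x) (hodd : x % 2 = 1) : ∀ s, V (2 ^ (s + 1)) x % 8 = 7 ∧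
    7 ≤ V (2 ^ (s + 1)) x ∧ x ∣ V (2 ^ (s + 1)) x ^ 2 - 4 := by
  intro s
  induction s with
  | zero =>
    have h1 : V (2 ^ (0 + 1)) x = x ^ 2 - 2 := by
      have : V (2 ^ (0 + 1)) x = x * x - 2 := rfl
      rw [this]
      ring
    rw [h1]
    refine ⟨?_, by nlinarith, ⟨x * (x ^ 2 - 4), by ring⟩⟩
    have h8 : x % 8 = 1 ∨ x % 8 = 3 ∨ x % 8 = 5 ∨ x % 8 = 7 := by omega
    rcases h8 with h | h | h | h <;> simp [pow_two, Int.sub_emod, Int.mul_emod, h]
  | succ s ih =>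
    obtain ⟨h1, h2, z, hz⟩ := ih
    have h3 : 2 ^ (s + 1 + 1) = 2 * 2 ^ (s + 1) := by ring
    have h4 := V_double x (2 ^ (s + 1))
    rw [h3, h4]
    refine ⟨?_, by nlinarith, ⟨z * (V (2 ^ (s + 1)) x ^ 2), ?_⟩⟩
    · simp [pow_two, Int.sub_emod, Int.mul_emod, h1]
    · linear_combination (V (2 ^ (s + 1)) x ^ 2) * hz

lemma odd_j (j : ℕ) (hj : 3 ≤ j) (hodd : j % 2 = 1) : ∃ s t r : ℕ,
    (r = 2 * 2 ^ (s + 1) + 1 ∨ r = 2 * 2 ^ (s + 1) - 1) ∧ j = 4 * 2 ^ (s + 1) * t + r := by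
  have key : ∀ e, e ≠ 0 → e % 4 = 0 → ∃ s t, e = 4 * 2 ^ (s + 1) * t + 2 * 2 ^ (s + 1) := by
    intro e he h4
    obtain ⟨k, m, hm, hkm⟩ := Nat.exists_eq_two_pow_mul_odd he
    obtain ⟨t, rfl⟩ := hm
    match k, hkm with
    | 0, hkm => omega
    | 1, hkm => omega
    | (k + 2), hkm =>
      refine ⟨k, t, ?_⟩
      rw [hkm]
      ring
  have h4 : j % 4 = 1 ∨ j % 4 = 3 := by omega
  rcases h4 with h4 | h4
  · obtain ⟨s, t, h⟩ := key (j - 1) (by omega) (by omega)
    exact ⟨s, t, _, Or.inl rfl, by omega⟩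
  · obtain ⟨s, t, h⟩ := key (j + 1) (by omega) (by omega)
    have hp : 1 ≤ 2 ^ (s + 1) := Nat.one_le_two_pow
    exact ⟨s, t, _, Or.inr rfl, by omega⟩

lemma no_sq (b : ℤ) (h7 : b % 8 = 7) (hb : 7 ≤ b) (c : ℤ) (h : b ∣ c ^ 2 + 1) : False := by
  obtain ⟨n, rfl⟩ := Int.eq_ofNat_of_zero_le (by omega : 0 ≤ b)
  have hn : n % 4 = 3 := by omega
  have hoddn : Odd n := Nat.odd_iff.mpr (by omega)
  have h1 : jacobiSym (-1) n = -1 := by
    rw [jacobiSym.at_neg_one hoddn]
    exact ZMod.χ₄_nat_three_mod_four hn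
  have h2 : jacobiSym (c ^ 2) n = jacobiSym (-1) n := by
    apply jacobiSym.mod_left'
    have : (c ^ 2) ≡ (-1) [ZMOD (n : ℤ)] := by
      apply Int.ModEq.symm
      rw [Int.modEq_iff_dvd]
      have h3 : c ^ 2 - -1 = c ^ 2 + 1 := by ring
      rw [h3]
      exact h
    exact this
  rw [jacobiSym.pow_left, h1] at h2
  nlinarith [sq_nonneg (jacobiSym c n)]

lemma U_shift (x : ℤ) (N : ℕ) : ∀ n, U (n + 2 * N) x = U (n + N) x * V N x - U n x ∧
    U (n + 1 + 2 * N) x = U (n + 1 + N) x * V N x - U (n + 1) x := by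
  intro n
  induction n with
  | zero =>
    constructor
    · rw [Nat.zero_add, Nat.zero_add, even_form, (V_eq x N).1]
      simp [U]
    · have h1 : 0 + 1 + 2 * N = 2 * N + 1 := by ring
      have h2 : 0 + 1 + N = N + 1 := by ring
      rw [h1, h2, odd_form, (V_eq x N).1]
      have h3 : U (0 + 1) x = 1 := rfl
      rw [h3]
      linear_combination (-1) * norm x N
  | succ n ih =>
    refine ⟨ih.2, ?_⟩
    have h1 : n + 1 + 1 + 2 * N = (n + 2 * N) + 2 := by ring
    have h2 : n + 1 + 1 + N = (n + N) + 2 := by ring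
    have h3 : U ((n + 2 * N) + 2) x = x * U ((n + 2 * N) + 1) x - U (n + 2 * N) x := rfl
    have h4 : U ((n + N) + 2) x = x * U ((n + N) + 1) x - U (n + N) x := rfl
    have h5 : U (n + 1 + 1) x = x * U (n + 1) x - U n x := rfl
    have h6 : n + 1 + 2 * N = (n + 2 * N) + 1 := by ring
    have h7 : n + 1 + N = (n + N) + 1 := by ring
    rw [h6, h7] at ih
    rw [h1, h2, h3, h4, h5, ih.1, ih.2]
    ring

/-- `A_j = G_j - G_{j-1}` -/
def A (j : ℕ) (x : ℤ) : ℤ := U (j + 1) x - U j x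

lemma A_shift (x : ℤ) (N n : ℕ) : A (n + 2 * N) x = A (n + N) x * V N x - A n x := by
  have h1 := (U_shift x N n).1
  have h2 := (U_shift x N n).2
  have h6 : n + 1 + 2 * N = (n + 2 * N) + 1 := by ring
  have h7 : n + 1 + N = (n + N) + 1 := by ring
  rw [h6, h7] at h2
  unfold A
  rw [h1, h2]
  ring

lemma A_period (x : ℤ) (N r : ℕ) : ∀ t, V N x ∣ A (4 * N * t + r) x - A r x := by
  intro t
  induction t with
  | zero => simp
  | succ t ih =>
    have h1 := A_shift x N (4 * N * t + r)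
    have h2 := A_shift x N (4 * N * t + r + 2 * N)
    have h3 : 4 * N * (t + 1) + r = 4 * N * t + r + 2 * N + 2 * N := by ring
    rw [h3, h2, h1]
    have h4 : A (4 * N * t + r + 2 * N + N) x * V N x -
        (A (4 * N * t + r + N) x * V N x - A (4 * N * t + r) x) - A r x =
        V N x * (A (4 * N * t + r + 2 * N + N) x - A (4 * N * t + r + N) x) +
          (A (4 * N * t + r) x - A r x) := by ring
    rw [h4]
    exact dvd_add (dvd_mul_right _ _) ih

lemma A_mid (x : ℤ) (N : ℕ) (hN : 1 ≤ N) :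
    V N x ∣ A (2 * N) x + 1 ∧ V N x ∣ A (2 * N - 1) x + 1 := by
  have h1 := A_shift x N 0
  rw [Nat.zero_add, Nat.zero_add] at h1
  have h0 : A 0 x = 1 := by
    unfold A
    simp [U]
  rw [h0] at h1
  constructor
  · exact ⟨A N x, by linear_combination h1⟩
  · have h2 : A (2 * N + 1) x = x * A (2 * N) x - A (2 * N - 1) x := by
      obtain ⟨M, rfl⟩ : ∃ M, N = M + 1 := ⟨N - 1, by omega⟩
      have e1 : 2 * (M + 1) - 1 = 2 * M + 1 := by omega
      have e2 : 2 * (M + 1) = 2 * M + 2 := by ring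
      rw [e1, e2]
      unfold A
      have h3 : U (2 * M + 2 + 1 + 1) x = x * U (2 * M + 2 + 1) x - U (2 * M + 2) x := rfl
      have h4 : U (2 * M + 2 + 1) x = x * U (2 * M + 2) x - U (2 * M + 1) x := rfl
      have h5 : U (2 * M + 1 + 1) x = U (2 * M + 2) x := rfl
      rw [h5, h3]
      linear_combination (-1) * h4
    have h6 := A_shift x N 1
    have e3 : 1 + 2 * N = 2 * N + 1 := by ring
    have h7 : A 1 x = x - 1 := by
      unfold A
      simp [U]
    rw [e3, h7] at h6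
    refine ⟨x * A N x - A (1 + N) x, ?_⟩
    linear_combination h2 - h6 + x * h1

lemma V_pow3 (x : ℤ) (hx : 3 ≤ x) (h3 : x % 4 = 3) (s : ℕ) :
    V (2 ^ s) x % 4 = 3 ∧ 3 ≤ V (2 ^ s) x := by
  cases s with
  | zero =>
    have h : V (2 ^ 0) x = x := rfl
    rw [h]
    exact ⟨h3, hx⟩
  | succ s =>
    obtain ⟨h1, h2, -⟩ := V_pow x hx (by omega) s
    exact ⟨by omega, by omega⟩

lemma no_sq3 (b : ℤ) (h7 : b % 4 = 3) (hb : 3 ≤ b) (c : ℤ) (h : b ∣ c ^ 2 + 1) : False := by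
  obtain ⟨n, rfl⟩ := Int.eq_ofNat_of_zero_le (by omega : 0 ≤ b)
  have hn : n % 4 = 3 := by omega
  have hoddn : Odd n := Nat.odd_iff.mpr (by omega)
  have h1 : jacobiSym (-1) n = -1 := by
    rw [jacobiSym.at_neg_one hoddn]
    exact ZMod.χ₄_nat_three_mod_four hn
  have h2 : jacobiSym (c ^ 2) n = jacobiSym (-1) n := by
    apply jacobiSym.mod_left'
    have : (c ^ 2) ≡ (-1) [ZMOD (n : ℤ)] := by
      apply Int.ModEq.symm
      rw [Int.modEq_iff_dvd]
      have h3 : c ^ 2 - -1 = c ^ 2 + 1 := by ring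
      rw [h3]
      exact h
    exact this
  rw [jacobiSym.pow_left, h1] at h2
  nlinarith [sq_nonneg (jacobiSym c n)]

lemma any_j (j : ℕ) (hj : 1 ≤ j) : ∃ s t r : ℕ,
    (r = 2 * 2 ^ s ∨ r = 2 * 2 ^ s - 1) ∧ j = 4 * 2 ^ s * t + r := by
  have key : ∀ e, e ≠ 0 → e % 2 = 0 → ∃ s t, e = 4 * 2 ^ s * t + 2 * 2 ^ s := by
    intro e he h4
    obtain ⟨k, m, hm, hkm⟩ := Nat.exists_eq_two_pow_mul_odd he
    obtain ⟨t, rfl⟩ := hm
    match k, hkm with
    | 0, hkm => omega
    | (k + 1), hkm =>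
      refine ⟨k, t, ?_⟩
      rw [hkm]
      ring
  rcases Nat.even_or_odd j with h4 | h4
  · obtain ⟨s, t, h⟩ := key j (by omega) (Nat.even_iff.mp h4)
    exact ⟨s, t, _, Or.inl rfl, h⟩
  · have h5 := Nat.odd_iff.mp h4
    obtain ⟨s, t, h⟩ := key (j + 1) (by omega) (by omega)
    have hp : 1 ≤ 2 ^ s := Nat.one_le_two_pow
    exact ⟨s, t, _, Or.inr rfl, by omega⟩

/-- For `l ≡ 3` modulo `4` a term of index `2` is not a term of odd index of the chain of `l`. -/
theorem result (k l : ℤ) (j : ℕ) (hl : 3 ≤ l) (hl4 : l % 4 = 3) (hj : 1 ≤ j) :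
    G 2 k ≠ G (2 * j + 1) l := by
  intro h
  have h1 : G 2 k = k ^ 2 - 1 := by
    simp [G]
    ring
  have h2 : G (2 * j + 1) l = U (2 * (j + 1)) l := (G_eq l (2 * j + 1)).1
  have hc : U (j + 1 + 1) l = l * U (j + 1) l - U j l := rfl
  have h5 := norm l j
  have h5' := norm l (j + 1)
  have hprod : (U (j + 1) l - U j l) * (l * U (j + 1) l + (U (j + 1) l - U j l)) = k ^ 2 := by
    have h6 : k ^ 2 - 1 = U (j + 1) l * (2 * U (j + 1 + 1) l - l * U (j + 1) l) := by
      rw [← h1, h, h2, even_form]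
    rw [hc] at h6
    linear_combination -h6 + h5
  have hcop1 : IsCoprime (U (j + 1) l) (U j l) :=
    ⟨U (j + 1) l - l * U j l, U j l, by linear_combination h5⟩
  have hcb : IsCoprime (U (j + 1) l - U j l) (U (j + 1) l) := by
    obtain ⟨a, b, hab⟩ := hcop1
    exact ⟨-b, a + b, by linear_combination hab⟩
  have hca : IsCoprime (U (j + 1) l - U j l) (U j l) := by
    obtain ⟨a, b, hab⟩ := hcop1
    exact ⟨a, a + b, by linear_combination hab⟩
  have hcl : IsCoprime (U (j + 1) l - U j l) l := by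
    rcases Nat.even_or_odd j with h6 | h6
    · obtain ⟨i, hi⟩ := h6
      obtain ⟨q, hq⟩ := dvd_even l i
      have h7 : j = 2 * i := by omega
      rw [h7] at hca ⊢
      exact hca.of_isCoprime_of_dvd_right ⟨q, hq⟩
    · obtain ⟨i, hi⟩ := h6
      obtain ⟨q, hq⟩ := dvd_even l (i + 1)
      have h7 : j + 1 = 2 * (i + 1) := by omega
      exact hcb.of_isCoprime_of_dvd_right ⟨q, by rw [h7]; exact hq⟩
  have hcop : IsCoprime (U (j + 1) l - U j l)
      (l * U (j + 1) l + (U (j + 1) l - U j l)) := by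
    obtain ⟨a, b, hab⟩ := hcl.mul_right hcb
    exact ⟨a - b, b, by linear_combination hab⟩
  have hgrow := grow l hl j
  have hBpos : 0 < l * U (j + 1) l + (U (j + 1) l - U j l) := by nlinarith [hgrow.1, hgrow.2]
  obtain ⟨c, hc'⟩ := Int.sq_of_isCoprime hcop hprod
  have hA : ∃ c : ℤ, A j l = c ^ 2 := by
    rcases hc' with hc' | hc'
    · exact ⟨c, hc'⟩
    · have : 1 ≤ U (j + 1) l - U j l := by linarith [hgrow.2]
      nlinarith [sq_nonneg c]
  obtain ⟨c, hA⟩ := hA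
  obtain ⟨s, t, r, hr, hjr⟩ := any_j j hj
  obtain ⟨hp1, hp2⟩ := V_pow3 l hl hl4 s
  have hmid := A_mid l (2 ^ s) Nat.one_le_two_pow
  have hper := A_period l (2 ^ s) r t
  rw [← hjr] at hper
  have hrr : V (2 ^ s) l ∣ A r l + 1 := by
    rcases hr with rfl | rfl
    · exact hmid.1
    · exact hmid.2
  have h11 := dvd_add hper hrr
  have h12 : A j l - A r l + (A r l + 1) = c ^ 2 + 1 := by
    rw [hA]
    ring
  rw [h12] at h11
  exact no_sq3 _ hp1 hp2 c h11

end Pool.Agent.Results.MP_83ba34_nt.OddIndices
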