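import Mathlib

/-!
# Mutual square-root-of-unity divisors below n, MP_83ba34_nt

The second term `G_2(k) = k² - 1` of a chain is never a term `G_{4m}(l)`, `m ≥ 1`, `l ≥ 3`, of a
chain. This excludes the coincidences of index `(2, 4m)` in the chain reformulation of Q1.

Proof. `G_{4m} + 1 = G_{2m} V_{2m}`, where `V` is the companion sequence, and the two factors are
coprime. If the product is a square, then `V_{2m} = V_m² - 2` is a square, which is impossible.
-/

set_option autoImplicit false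

namespace Pool.Agent.Results.MP_83ba34_nt.SecondTerms

/-- `G_0 = 1`, `G_1 = x`, `G_{i+2} = x G_{i+1} - G_i` -/
def G : ℕ → ℤ → ℤ
  | 0, _ => 1
  | 1, x => x
  | (i + 2), x => x * G (i + 1) x - G i x

/-- `U_0 = 0`, `U_1 = 1`, so `G_i = U_{i+1}` -/
def U : ℕ → ℤ → ℤ
  | 0, _ => 0
  | 1, _ => 1
  | (i + 2), x => x * U (i + 1) x - U i x

lemma G_eq (x : ℤ) : ∀ i, G i x = U (i + 1) x ∧ G (i + 1) x = U (i + 2) x := by
  intro i
  induction i with
  | zero => simp [G, U]
  | succ i ih =>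
    refine ⟨ih.2, ?_⟩
    show x * G (i + 1) x - G i x = x * U (i + 2) x - U (i + 1) x
    rw [ih.1, ih.2]

lemma norm (x : ℤ) : ∀ n, U (n + 1) x ^ 2 - x * U (n + 1) x * U n x + U n x ^ 2 = 1 := by
  intro n
  induction n with
  | zero => simp [U]
  | succ n ih =>
    have h : U (n + 2) x = x * U (n + 1) x - U n x := rfl
    rw [h]
    linear_combination ih

lemma add_form (x : ℤ) (a : ℕ) : ∀ b, U (a + b + 1) x = U (a + 1) x * U (b + 1) x - U a x * U b x ∧
    U (a + b + 2) x = U (a + 1) x * U (b + 2) x - U a x * U (b + 1) x := by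
  intro b
  induction b with
  | zero =>
    have h : U (a + 2) x = x * U (a + 1) x - U a x := rfl
    refine ⟨?_, ?_⟩
    · simp [U]
    · show U (a + 2) x = _
      rw [h]
      simp [U]
      ring
  | succ b ih =>
    refine ⟨ih.2, ?_⟩
    have h1 : U (a + (b + 1) + 2) x = x * U (a + b + 2) x - U (a + b + 1) x := rfl
    have h2 : U (b + 1 + 2) x = x * U (b + 2) x - U (b + 1) x := rfl
    have h3 : U (b + 2) x = x * U (b + 1) x - U b x := rfl
    rw [h1, ih.1, ih.2, h2]
    linear_combination (U a x) * h3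

lemma odd_form (x : ℤ) (j : ℕ) : U (2 * j + 1) x = U (j + 1) x ^ 2 - U j x ^ 2 := by
  have h := (add_form x j j).1
  have h2 : 2 * j + 1 = j + j + 1 := by ring
  rw [h2, h]
  ring

lemma even_form (x : ℤ) (j : ℕ) : U (2 * j) x = U j x * (2 * U (j + 1) x - x * U j x) := by
  cases j with
  | zero => simp [U]
  | succ j =>
    have h := (add_form x (j + 1) j).1
    have h2 : 2 * (j + 1) = j + 1 + j + 1 := by ring
    have h3 : U (j + 1 + 1) x = x * U (j + 1) x - U j x := rfl
    rw [h2, h, h3]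
    ring

lemma dvd_even (x : ℤ) : ∀ m, ∃ q, U (2 * m) x = x * q := by
  intro m
  induction m with
  | zero => exact ⟨0, by simp [U]⟩
  | succ m ih =>
    obtain ⟨q, hq⟩ := ih
    have h : U (2 * (m + 1)) x = x * U (2 * m + 1) x - U (2 * m) x := rfl
    exact ⟨U (2 * m + 1) x - q, by rw [h, hq]; ring⟩

lemma grow (x : ℤ) (hx : 3 ≤ x) : ∀ n, 0 ≤ U n x ∧ U n x + 1 ≤ U (n + 1) x := by
  intro n
  induction n with
  | zero => simp [U]
  | succ n ih =>
    have h : U (n + 2) x = x * U (n + 1) x - U n x := rfl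
    refine ⟨by linarith [ih.1, ih.2], ?_⟩
    show U (n + 1) x + 1 ≤ U (n + 2) x
    rw [h]
    nlinarith [ih.1, ih.2]

/-- A term of index `2` of a chain is not a term of index `4 m` of a chain. -/
theorem result (k l : ℤ) (m : ℕ) (hl : 3 ≤ l) : G 2 k ≠ G (4 * m) l := by
  intro h
  have h1 : G 2 k = k ^ 2 - 1 := by
    simp [G]
    ring
  have h2 : G (4 * m) l = U (4 * m + 1) l := (G_eq l (4 * m)).1
  have h3 : U (4 * m + 1) l = U (2 * m + 1) l ^ 2 - U (2 * m) l ^ 2 := by
    have := odd_form l (2 * m)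
    have h4 : 2 * (2 * m) + 1 = 4 * m + 1 := by ring
    rw [h4] at this
    exact this
  have h5 := norm l (2 * m)
  have hprod : U (2 * m + 1) l * (2 * U (2 * m + 1) l - l * U (2 * m) l) = k ^ 2 := by
    have h6 : k ^ 2 - 1 = U (2 * m + 1) l ^ 2 - U (2 * m) l ^ 2 := by
      rw [← h1, h, h2, h3]
    linear_combination -h6 + h5
  obtain ⟨q, hq⟩ := dvd_even l m
  have hcop1 : IsCoprime (U (2 * m + 1) l) (U (2 * m) l) :=
    ⟨U (2 * m + 1) l - l * U (2 * m) l, U (2 * m) l, by linear_combination h5⟩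
  have hcop2 : IsCoprime (U (2 * m + 1) l) l := by
    rw [hq] at hcop1
    exact hcop1.of_mul_right_left
  have hcop : IsCoprime (U (2 * m + 1) l) (2 * U (2 * m + 1) l - l * U (2 * m) l) := by
    obtain ⟨a, b, hab⟩ := hcop2.mul_right hcop1
    exact ⟨a + 2 * b, -b, by linear_combination hab⟩
  have hV : 2 * U (2 * m + 1) l - l * U (2 * m) l = (2 * U (m + 1) l - l * U m l) ^ 2 - 2 := by
    rw [odd_form, even_form]
    linear_combination (-2) * norm l m
  have hPpos : 0 < U (2 * m + 1) l := by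
    have := grow l hl (2 * m)
    linarith [this.1, this.2]
  obtain ⟨c, hc⟩ := Int.sq_of_isCoprime hcop.symm (by rw [mul_comm]; exact hprod)
  have key : ∀ v c : ℤ, v ^ 2 - 2 ≠ c ^ 2 := by
    intro v c hvc
    have h7 : (v ^ 2 - 2) % 4 = c ^ 2 % 4 := by rw [hvc]
    have h8 : v % 4 = 0 ∨ v % 4 = 1 ∨ v % 4 = 2 ∨ v % 4 = 3 := by omega
    have h9 : c % 4 = 0 ∨ c % 4 = 1 ∨ c % 4 = 2 ∨ c % 4 = 3 := by omega
    rcases h8 with h8 | h8 | h8 | h8 <;> rcases h9 with h9 | h9 | h9 | h9 <;>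
      simp [pow_two, Int.sub_emod, Int.mul_emod, h8, h9] at h7
  rw [hV] at hc hprod
  rcases hc with hc | hc
  · exact key _ _ hc
  · have h10 : 0 ≤ (2 * U (m + 1) l - l * U m l) ^ 2 - 2 := by
      by_contra hneg
      push Not at hneg
      have := mul_neg_of_pos_of_neg hPpos hneg
      nlinarith [sq_nonneg k]
    have h11 : c ^ 2 = 0 := by nlinarith [sq_nonneg c]
    refine key (2 * U (m + 1) l - l * U m l) 0 ?_
    rw [hc, h11]
    ring

end Pool.Agent.Results.MP_83ba34_nt.SecondTerms
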