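import Mathlib

/-!
# Mutual square-root-of-unity divisors below n, MP_83ba34_nt

For odd `l ≥ 3` and all odd `j ≥ 3` the second term `G_2(k) = k² - 1` of a chain is never the term
`G_{2j}(l)`.

Proof. `G_{2j} + 1 = G_j V_j`, where `V` is the companion sequence, both factors are divisible by
`l`, and the quotients are coprime. If the product is a square, then `V_j / l` is a square. But
`V_j ≡ -l` modulo `V_N` for a suitable power `N ≥ 2` of two, and `V_N ≡ 7` modulo `8`.
-/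

set_option autoImplicit false

namespace Pool.Agent.Results.MP_83ba34_nt.SecondTermsOdd

/-- `G_0 = 1`, `G_1 = x`, `G_{i+2} = x G_{i+1} - G_i` -/
def G : ℕ → ℤ → ℤ
  | 0, _ => 1
  | 1, x => x
  | (i + 2), x => x * G (i + 1) x - G i x

/-- `U_0 = 0`, `U_1 = 1`, so `G_i = U_{i+1}` -/
def U : ℕ → ℤ → ℤ
  | 0, _ => 0
  | 1, _ => 1
  | (i + 2), x => x * U (i + 1) x - U i x

lemma G_eq (x : ℤ) : ∀ i, G i x = U (i + 1) x ∧ G (i + 1) x = U (i + 2) x := by
  intro i
  induction i with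
  | zero => simp [G, U]
  | succ i ih =>
    refine ⟨ih.2, ?_⟩
    show x * G (i + 1) x - G i x = x * U (i + 2) x - U (i + 1) x
    rw [ih.1, ih.2]

lemma norm (x : ℤ) : ∀ n, U (n + 1) x ^ 2 - x * U (n + 1) x * U n x + U n x ^ 2 = 1 := by
  intro n
  induction n with
  | zero => simp [U]
  | succ n ih =>
    have h : U (n + 2) x = x * U (n + 1) x - U n x := rfl
    rw [h]
    linear_combination ih

lemma add_form (x : ℤ) (a : ℕ) : ∀ b, U (a + b + 1) x = U (a + 1) x * U (b + 1) x - U a x * U b x ∧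
    U (a + b + 2) x = U (a + 1) x * U (b + 2) x - U a x * U (b + 1) x := by
  intro b
  induction b with
  | zero =>
    have h : U (a + 2) x = x * U (a + 1) x - U a x := rfl
    refine ⟨?_, ?_⟩
    · simp [U]
    · show U (a + 2) x = _
      rw [h]
      simp [U]
      ring
  | succ b ih =>
    refine ⟨ih.2, ?_⟩
    have h1 : U (a + (b + 1) + 2) x = x * U (a + b + 2) x - U (a + b + 1) x := rfl
    have h2 : U (b + 1 + 2) x = x * U (b + 2) x - U (b + 1) x := rfl
    have h3 : U (b + 2) x = x * U (b + 1) x - U b x := rfl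
    rw [h1, ih.1, ih.2, h2]
    linear_combination (U a x) * h3

lemma odd_form (x : ℤ) (j : ℕ) : U (2 * j + 1) x = U (j + 1) x ^ 2 - U j x ^ 2 := by
  have h := (add_form x j j).1
  have h2 : 2 * j + 1 = j + j + 1 := by ring
  rw [h2, h]
  ring

lemma even_form (x : ℤ) (j : ℕ) : U (2 * j) x = U j x * (2 * U (j + 1) x - x * U j x) := by
  cases j with
  | zero => simp [U]
  | succ j =>
    have h := (add_form x (j + 1) j).1
    have h2 : 2 * (j + 1) = j + 1 + j + 1 := by ring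
    have h3 : U (j + 1 + 1) x = x * U (j + 1) x - U j x := rfl
    rw [h2, h, h3]
    ring

lemma dvd_even (x : ℤ) : ∀ m, ∃ q, U (2 * m) x = x * q := by
  intro m
  induction m with
  | zero => exact ⟨0, by simp [U]⟩
  | succ m ih =>
    obtain ⟨q, hq⟩ := ih
    have h : U (2 * (m + 1)) x = x * U (2 * m + 1) x - U (2 * m) x := rfl
    exact ⟨U (2 * m + 1) x - q, by rw [h, hq]; ring⟩

lemma grow (x : ℤ) (hx : 3 ≤ x) : ∀ n, 0 ≤ U n x ∧ U n x + 1 ≤ U (n + 1) x := by
  intro n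
  induction n with
  | zero => simp [U]
  | succ n ih =>
    have h : U (n + 2) x = x * U (n + 1) x - U n x := rfl
    refine ⟨by linarith [ih.1, ih.2], ?_⟩
    show U (n + 1) x + 1 ≤ U (n + 2) x
    rw [h]
    nlinarith [ih.1, ih.2]

/-- the companion sequence -/
def V : ℕ → ℤ → ℤ
  | 0, _ => 2
  | 1, x => x
  | (i + 2), x => x * V (i + 1) x - V i x

lemma V_eq (x : ℤ) : ∀ n, V n x = 2 * U (n + 1) x - x * U n x ∧
    V (n + 1) x = 2 * U (n + 2) x - x * U (n + 1) x := by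
  intro n
  induction n with
  | zero =>
    constructor
    · simp [V, U]
    · simp [V, U]
      ring
  | succ n ih =>
    refine ⟨ih.2, ?_⟩
    have h1 : V (n + 1 + 1) x = x * V (n + 1) x - V n x := rfl
    have h2 : U (n + 2) x = x * U (n + 1) x - U n x := rfl
    have h3 : U (n + 1 + 2) x = x * U (n + 2) x - U (n + 1) x := rfl
    rw [h1, ih.1, ih.2, h3]
    linear_combination x * h2

lemma V_double (x : ℤ) (N : ℕ) : V (2 * N) x = V N x ^ 2 - 2 := by
  rw [(V_eq x (2 * N)).1, (V_eq x N).1, odd_form, even_form]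
  linear_combination (-2) * norm x N

lemma V_double_succ (x : ℤ) (N : ℕ) : V (2 * N + 1) x = V (N + 1) x * V N x - x := by
  have h1 : V (2 * N + 1) x = 2 * U (2 * (N + 1)) x - x * U (2 * N + 1) x := (V_eq x (2 * N)).2
  have h3 : U (N + 1 + 1) x = x * U (N + 1) x - U N x := rfl
  rw [h1, even_form, odd_form, (V_eq x N).2, (V_eq x N).1]
  rw [h3]
  linear_combination (-x) * norm x N

lemma V_shift (x : ℤ) (N : ℕ) : ∀ n, V (n + 2 * N) x = V (n + N) x * V N x - V n x ∧
    V (n + 1 + 2 * N) x = V (n + 1 + N) x * V N x - V (n + 1) x := by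
  intro n
  induction n with
  | zero =>
    constructor
    · rw [Nat.zero_add, Nat.zero_add, V_double]
      simp [V]
      ring
    · have h := V_double_succ x N
      have h1 : 0 + 1 + 2 * N = 2 * N + 1 := by ring
      have h2 : 0 + 1 + N = N + 1 := by ring
      rw [h1, h2, h]
      simp [V]
  | succ n ih =>
    refine ⟨ih.2, ?_⟩
    have h1 : n + 1 + 1 + 2 * N = (n + 2 * N) + 2 := by ring
    have h2 : n + 1 + 1 + N = (n + N) + 2 := by ring
    have h3 : V ((n + 2 * N) + 2) x = x * V ((n + 2 * N) + 1) x - V (n + 2 * N) x := rfl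
    have h4 : V ((n + N) + 2) x = x * V ((n + N) + 1) x - V (n + N) x := rfl
    have h5 : V (n + 1 + 1) x = x * V (n + 1) x - V n x := rfl
    have h6 : n + 1 + 2 * N = (n + 2 * N) + 1 := by ring
    have h7 : n + 1 + N = (n + N) + 1 := by ring
    rw [h6, h7] at ih
    rw [h1, h2, h3, h4, h5, ih.1, ih.2]
    ring

lemma V_period (x : ℤ) (N r : ℕ) : ∀ t, V N x ∣ V (4 * N * t + r) x - V r x := by
  intro t
  induction t with
  | zero => simp
  | succ t ih =>
    have h1 := (V_shift x N (4 * N * t + r)).1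
    have h2 := (V_shift x N (4 * N * t + r + 2 * N)).1
    have h3 : 4 * N * (t + 1) + r = 4 * N * t + r + 2 * N + 2 * N := by ring
    rw [h3, h2, h1]
    have h4 : V (4 * N * t + r + 2 * N + N) x * V N x -
        (V (4 * N * t + r + N) x * V N x - V (4 * N * t + r) x) - V r x =
        V N x * (V (4 * N * t + r + 2 * N + N) x - V (4 * N * t + r + N) x) +
          (V (4 * N * t + r) x - V r x) := by ring
    rw [h4]
    exact dvd_add (dvd_mul_right _ _) ih

lemma V_mid (x : ℤ) (N : ℕ) (hN : 1 ≤ N) :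
    V N x ∣ V (2 * N + 1) x + x ∧ V N x ∣ V (2 * N - 1) x + x := by
  have h1 := V_double_succ x N
  constructor
  · rw [h1]
    exact ⟨V (N + 1) x, by ring⟩
  · have h2 : V (2 * N + 1) x = x * V (2 * N) x - V (2 * N - 1) x := by
      obtain ⟨M, rfl⟩ : ∃ M, N = M + 1 := ⟨N - 1, by omega⟩
      rfl
    refine ⟨x * V N x - V (N + 1) x, ?_⟩
    rw [V_double] at h2
    linear_combination h2 - h1

lemma V_pow (x : ℤ) (hx : 3 ≤ x) (hodd : x % 2 = 1) : ∀ s, V (2 ^ (s + 1)) x % 8 = 7 ∧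
    7 ≤ V (2 ^ (s + 1)) x ∧ x ∣ V (2 ^ (s + 1)) x ^ 2 - 4 := by
  intro s
  induction s with
  | zero =>
    have h1 : V (2 ^ (0 + 1)) x = x ^ 2 - 2 := by
      have : V (2 ^ (0 + 1)) x = x * x - 2 := rfl
      rw [this]
      ring
    rw [h1]
    refine ⟨?_, by nlinarith, ⟨x * (x ^ 2 - 4), by ring⟩⟩
    have h8 : x % 8 = 1 ∨ x % 8 = 3 ∨ x % 8 = 5 ∨ x % 8 = 7 := by omega
    rcases h8 with h | h | h | h <;> simp [pow_two, Int.sub_emod, Int.mul_emod, h]
  | succ s ih =>
    obtain ⟨h1, h2, z, hz⟩ := ih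
    have h3 : 2 ^ (s + 1 + 1) = 2 * 2 ^ (s + 1) := by ring
    have h4 := V_double x (2 ^ (s + 1))
    rw [h3, h4]
    refine ⟨?_, by nlinarith, ⟨z * (V (2 ^ (s + 1)) x ^ 2), ?_⟩⟩
    · simp [pow_two, Int.sub_emod, Int.mul_emod, h1]
    · linear_combination (V (2 ^ (s + 1)) x ^ 2) * hz

lemma odd_j (j : ℕ) (hj : 3 ≤ j) (hodd : j % 2 = 1) : ∃ s t r : ℕ,
    (r = 2 * 2 ^ (s + 1) + 1 ∨ r = 2 * 2 ^ (s + 1) - 1) ∧ j = 4 * 2 ^ (s + 1) * t + r := by
  have key : ∀ e, e ≠ 0 → e % 4 = 0 → ∃ s t, e = 4 * 2 ^ (s + 1) * t + 2 * 2 ^ (s + 1) := by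
    intro e he h4
    obtain ⟨k, m, hm, hkm⟩ := Nat.exists_eq_two_pow_mul_odd he
    obtain ⟨t, rfl⟩ := hm
    match k, hkm with
    | 0, hkm => omega
    | 1, hkm => omega
    | (k + 2), hkm =>
      refine ⟨k, t, ?_⟩
      rw [hkm]
      ring
  have h4 : j % 4 = 1 ∨ j % 4 = 3 := by omega
  rcases h4 with h4 | h4
  · obtain ⟨s, t, h⟩ := key (j - 1) (by omega) (by omega)
    exact ⟨s, t, _, Or.inl rfl, by omega⟩
  · obtain ⟨s, t, h⟩ := key (j + 1) (by omega) (by omega)
    have hp : 1 ≤ 2 ^ (s + 1) := Nat.one_le_two_pow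
    exact ⟨s, t, _, Or.inr rfl, by omega⟩

lemma no_sq (b : ℤ) (h7 : b % 8 = 7) (hb : 7 ≤ b) (c : ℤ) (h : b ∣ c ^ 2 + 1) : False := by
  obtain ⟨n, rfl⟩ := Int.eq_ofNat_of_zero_le (by omega : 0 ≤ b)
  have hn : n % 4 = 3 := by omega
  have hoddn : Odd n := Nat.odd_iff.mpr (by omega)
  have h1 : jacobiSym (-1) n = -1 := by
    rw [jacobiSym.at_neg_one hoddn]
    exact ZMod.χ₄_nat_three_mod_four hn
  have h2 : jacobiSym (c ^ 2) n = jacobiSym (-1) n := by
    apply jacobiSym.mod_left'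
    have : (c ^ 2) ≡ (-1) [ZMOD (n : ℤ)] := by
      apply Int.ModEq.symm
      rw [Int.modEq_iff_dvd]
      have h3 : c ^ 2 - -1 = c ^ 2 + 1 := by ring
      rw [h3]
      exact h
    exact this
  rw [jacobiSym.pow_left, h1] at h2
  nlinarith [sq_nonneg (jacobiSym c n)]

/-- For odd `l ≥ 3` and odd `j ≥ 3` a term of index `2` is not the term of index `2 j`. -/
theorem result (k l : ℤ) (j : ℕ) (hl : 3 ≤ l) (hlo : Odd l) (hj : 3 ≤ j) (hjo : Odd j) :
    G 2 k ≠ G (2 * j) l := by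
  intro h
  have hlo' : l % 2 = 1 := Int.odd_iff.mp hlo
  have hjo' : j % 2 = 1 := Nat.odd_iff.mp hjo
  have h1 : G 2 k = k ^ 2 - 1 := by
    simp [G]
    ring
  have h2 : G (2 * j) l = U (2 * j + 1) l := (G_eq l (2 * j)).1
  have h5 := norm l j
  have hprod : U (j + 1) l * (2 * U (j + 1) l - l * U j l) = k ^ 2 := by
    have h6 : k ^ 2 - 1 = U (j + 1) l ^ 2 - U j l ^ 2 := by
      rw [← h1, h, h2, odd_form]
    linear_combination -h6 + h5
  obtain ⟨q, hq⟩ : ∃ q, U (j + 1) l = l * q := by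
    have h3 : j + 1 = 2 * ((j + 1) / 2) := by omega
    rw [h3]
    exact dvd_even l _
  have hl0 : l ≠ 0 := by omega
  have hk : l ∣ k := by
    have h6 : l ^ 2 ∣ k ^ 2 := ⟨q * (2 * q - U j l), by rw [← hprod, hq]; ring⟩
    exact (Int.pow_dvd_pow_iff (by norm_num)).mp h6
  obtain ⟨k', rfl⟩ := hk
  have hqw : q * (2 * q - U j l) = k' ^ 2 := by
    have h6 : l ^ 2 * (q * (2 * q - U j l)) = l ^ 2 * k' ^ 2 := by
      rw [hq] at hprod
      linear_combination hprod
    exact mul_left_cancel₀ (pow_ne_zero 2 hl0) h6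
  have hcop1 : IsCoprime (U (j + 1) l) (U j l) :=
    ⟨U (j + 1) l - l * U j l, U j l, by linear_combination h5⟩
  have hcop : IsCoprime q (2 * q - U j l) := by
    rw [hq] at hcop1
    obtain ⟨a, b, hab⟩ := hcop1.of_mul_left_right
    exact ⟨a + 2 * b, -b, by linear_combination hab⟩
  have hgrow := grow l hl j
  have hqpos : 0 < q := by
    have h6 : 0 < l * q := by
      rw [← hq]
      linarith [hgrow.1, hgrow.2]
    exact (mul_pos_iff_of_pos_left (by linarith : (0 : ℤ) < l)).mp h6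
  obtain ⟨c, hc⟩ := Int.sq_of_isCoprime hcop.symm (by rw [mul_comm]; exact hqw)
  have hVj : V j l = l * (2 * q - U j l) := by
    rw [(V_eq l j).1, hq]
    ring
  have hwsq : ∃ c : ℤ, 2 * q - U j l = c ^ 2 := by
    rcases hc with hc | hc
    · exact ⟨c, hc⟩
    · have h10 : 0 ≤ 2 * q - U j l := by
        by_contra hneg
        push Not at hneg
        have := mul_neg_of_pos_of_neg hqpos hneg
        nlinarith [sq_nonneg k']
      exact ⟨0, by nlinarith [sq_nonneg c]⟩
  obtain ⟨c, hc⟩ := hwsq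
  obtain ⟨s, t, r, hr, hjr⟩ := odd_j j hj hjo'
  obtain ⟨hp1, hp2, z, hz⟩ := V_pow l hl hlo' s
  have hN : 1 ≤ 2 ^ (s + 1) := Nat.one_le_two_pow
  have hmid := V_mid l (2 ^ (s + 1)) hN
  have hper := V_period l (2 ^ (s + 1)) r t
  rw [← hjr] at hper
  have hrr : V (2 ^ (s + 1)) l ∣ V r l + l := by
    rcases hr with rfl | rfl
    · exact hmid.1
    · exact hmid.2
  have hdvd : V (2 ^ (s + 1)) l ∣ l * (c ^ 2 + 1) := by
    have h11 := dvd_add hper hrr
    have h12 : V j l - V r l + (V r l + l) = l * (c ^ 2 + 1) := by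
      rw [hVj, hc]
      ring
    rw [h12] at h11
    exact h11
  have hcopV : IsCoprime (V (2 ^ (s + 1)) l) l := by
    have h13 : IsCoprime (4 : ℤ) l := by
      have h14 : IsCoprime (2 : ℤ) l := by
        obtain ⟨y, hy⟩ := hlo
        exact ⟨-y, 1, by rw [hy]; ring⟩
      have := h14.pow_left (m := 2)
      norm_num at this
      exact this
    obtain ⟨a, b, hab⟩ := h13
    exact ⟨a * V (2 ^ (s + 1)) l, b - a * z, by linear_combination hab + a * hz⟩
  exact no_sq _ hp1 hp2 c (hcopV.dvd_of_dvd_mul_left hdvd)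

end Pool.Agent.Results.MP_83ba34_nt.SecondTermsOdd
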